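import Pool.Agent.Helper7_GA.AllB

/-!
# Nuclear dimension of the C*-algebras of (torsion abelian)-by-cyclic groups

Let `G` be a group with an abelian torsion normal subgroup `T` such that `G / T` is cyclic, for
instance a lamplighter group `F ≀ ℤ` with `F` a finite abelian group.

* Every C*-algebra generated by a unitary representation of `G` has nuclear dimension at most `1`.
* If `G / T` is infinite, then `dim_nuc(C*(G)) = 1`.

More generally, every unital C*-algebra `E` generated by a unitary `u` and a set `P` of projections
all of whose conjugates `u^k p u^{-k}` commute has nuclear dimension at most `1`. So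
`dim_nuc(C(X) ⋊ ℤ) ≤ 1` for every homeomorphism of a compact zero-dimensional space.

## Proof

By local approximation `P` may be taken finite, and then `E` is generated by a covariant
representation of a full shift `(X, σ)`. For given `n` Krieger's marker lemma gives a clopen set `Z`
with `Z, σ Z, …, σ^{n-1} Z` disjoint such that the set `X₀` of the points whose orbit avoids `Z` is
finite. Let `B` be the subalgebra generated by `C(X)` and `v = 1_{X ∖ Z} u`. The ideal `I` of `B`
generated by `1_Z` and `1_{σ^{-1} Z}` is AF (the corners of these projections are commutative), and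
every nonzero quotient of `B / I` has a projection (coming from a periodic point in `X₀`) whose
corner is generated by a unitary, so that `B / I` has nuclear dimension at most `1`. With slowly
varying functions `h₀, h₁` of the distance to the markers, `h₀² + h₁² = 1`, one has
`g ≈ h₀ g h₀ + h₁ g h₁` for given finitely many `g`, where `h₀ g h₀ ∈ B` and `h₁ g h₁` is in a
finite-dimensional algebra `F` supported by a projection `e ∈ I`. Approximations of `B / I` with two
colours are lifted to `B`; the second colour is orthogonal to `e`, so it can be added to `F`; the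
first colour is merged with the approximations of the AF ideal `I` (the merging lemma of
`Pool/Agent/Helper7_ND`).
-/

set_option autoImplicit false

open scoped Matrix.Norms.L2Operator ENNReal Matrix

noncomputable section

namespace Pool.Agent.Results.MP_fd2aa3_an.TorsionAbelianByCyclic

open Pool.Agent.W659.EC Pool.Agent.Helper7_ND Pool.Agent.Helper7_GA

/-- `E` is generated, as a C*-algebra, by the unitary representation `U` of `G` -/
structure IsRepAlgebra (G : Type) [Group G] (E : Type) [CStarAlgebra E] (U : G →* E) : Prop where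
  unitary : ∀ g, star (U g) * U g = 1
  gen : ∀ S : NonUnitalStarSubalgebra ℂ E, IsClosed (S : Set E) → (∀ g, U g ∈ S) → ∀ x, x ∈ S

/-- `E` with `U` is the full group C*-algebra `C*(G)`: the universal C*-algebra generated by a
unitary representation of `G` -/
structure IsGroupAlgebra (G : Type) [Group G] (E : Type) [CStarAlgebra E] (U : G →* E) :
    Prop extends IsRepAlgebra G E U where
  universal : ∀ (B : Type) [CStarAlgebra B] (V : G →* B), (∀ g, star (V g) * V g = 1) →
    ∃ φ : E →⋆ₐ[ℂ] B, ∀ g, φ (U g) = V g

/-- the representation `g ↦ z ^ χ(g)` on the circle -/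
def circleRep {G : Type} [Group G] (χ : G →* Multiplicative ℤ) : G →* C(Circle, ℂ) where
  toFun g := ⟨fun z => ((z ^ (Multiplicative.toAdd (χ g)) : Circle) : ℂ),
    continuous_subtype_val.comp (continuous_zpow _)⟩
  map_one' := by
    ext z
    simp
  map_mul' g h := by
    ext z
    simp [zpow_add]

theorem nucDim_le {E : Type} [CStarAlgebra E] (h : SysAll E (Option (Fin 1))) : nucDim E ≤ 1 := by
  have := J_ND.t_ND.2 E (Fin 1) h
  simpa using this

/-- (1) Every unital C*-algebra generated by a unitary `u` and a set `P` of projections all of whose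
conjugates by powers of `u` commute has nuclear dimension at most `1`. (2) If `G` is generated by an
abelian torsion normal subgroup `T` and an element `t`, then every C*-algebra generated by a unitary
representation of `G` has nuclear dimension at most `1`. (3) If moreover `G / T` is infinite cyclic
(there is a homomorphism `χ : G → ℤ` with `χ(t) = 1`), then `dim_nuc(C*(G)) = 1`. -/
theorem result :
    (∀ (E : Type) [CStarAlgebra E] (u : E) (P : Set E), star u * u = 1 → u * star u = 1 →
      (∀ p ∈ P, star p = p ∧ p * p = p) →
      (∀ x ∈ conjs u P, ∀ y ∈ conjs u P, x * y = y * x) →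
      (∀ S : NonUnitalStarSubalgebra ℂ E, IsClosed (S : Set E) → P ⊆ S → u ∈ S → ∀ x, x ∈ S) →
      nucDim E ≤ 1) ∧
    ∀ (G : Type) [Group G] (T : Subgroup G) [T.Normal] (t : G),
      (∀ a ∈ T, ∀ b ∈ T, a * b = b * a) → (∀ a ∈ T, IsOfFinOrder a) →
      Subgroup.closure ((T : Set G) ∪ {t}) = ⊤ →
      ∀ (E : Type) [CStarAlgebra E] (U : G →* E),
        (IsRepAlgebra G E U → nucDim E ≤ 1) ∧
        (IsGroupAlgebra G E U → (∃ χ : G →* Multiplicative ℤ, χ t = Multiplicative.ofAdd 1) →
          nucDim E = 1) := by
  refine ⟨fun E _ u P h1 h2 h3 h4 h5 => nucDim_le (all_GEN E u P h1 h2 h3 h4 h5), ?_⟩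
  intro G _ T _ t hT hT' hcl E _ U
  have key : IsRepAlgebra G E U → nucDim E ≤ 1 := fun h =>
    nucDim_le (G_GRP.t_GRP all_GEN G T t hT hT' hcl E U h.unitary h.gen)
  refine ⟨key, fun h hχ => le_antisymm (key h.toIsRepAlgebra) ?_⟩
  obtain ⟨χ, hχ⟩ := hχ
  obtain ⟨φ, hφ⟩ := h.universal C(Circle, ℂ) (circleRep χ) (fun g => by
    ext z
    have h1 : ‖((z ^ (Multiplicative.toAdd (χ g)) : Circle) : ℂ)‖ = 1 := Circle.norm_coe _
    show (starRingEnd ℂ) ((z ^ (Multiplicative.toAdd (χ g)) : Circle) : ℂ)
      * ((z ^ (Multiplicative.toAdd (χ g)) : Circle) : ℂ) = 1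
    rw [mul_comm, Complex.mul_conj, Complex.normSq_eq_norm_sq, h1]
    norm_num)
  by_contra hlt
  have h0 : nucDim E ≤ 0 := by
    rw [not_le] at hlt
    exact Order.lt_one_iff_nonpos.1 hlt
  have h1 : SysAll E (Option (Fin 0)) := J_ND.t_ND.1 E 0 (by simpa using h0)
  refine G_LOW.t_LOW all_L1 E (U t) (φ : E →⋆ₙₐ[ℂ] C(Circle, ℂ)) (fun z => ?_) h1
  have h2 : φ (U t) = circleRep χ t := hφ t
  show (φ (U t)) z = (z : ℂ)
  rw [h2]
  show ((z ^ (Multiplicative.toAdd (χ t)) : Circle) : ℂ) = (z : ℂ)
  rw [hχ]
  simp

end Pool.Agent.Results.MP_fd2aa3_an.TorsionAbelianByCyclic
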